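import Pool.Agent.Y813.LE.Stm

set_option autoImplicit false

/-!
# Deepest holes and primitivity (jobs HOLE0, HOLE1, PRIM of project LEE)
-/

namespace Pool.Agent.Y46.LE

open Finset Filter Topology
open Pool.Agent.Y813.RL Pool.Agent.Y813.LE

section Basic

variable {r : ℕ} {G : Matrix (Fin r) (Fin r) ℤ}

lemma nonneg (h : PosD G) (x : Fin r → ℝ) : 0 ≤ bf G x x := by
  by_cases hx : x = 0
  · rw [hx, bf_zero_left]
  · exact (h.pos x hx).le

lemma cont_self : Continuous fun x : Fin r → ℝ => bf G x x :=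
  bf_contR G continuous_id continuous_id

/-- coordinate bound -/
lemma coord (h : PosD G) : ∃ K : ℝ, 0 < K ∧ ∀ (x : Fin r → ℝ) (i : Fin r),
    (x i) ^ 2 ≤ K * bf G x x := by
  rcases Nat.eq_zero_or_pos r with h0 | hr
  · subst h0
    exact ⟨1, one_pos, fun x i => i.elim0⟩
  have hne : (Metric.sphere (0 : Fin r → ℝ) 1).Nonempty := by
    refine ⟨fun _ => 1, ?_⟩
    have : Nonempty (Fin r) := ⟨⟨0, hr⟩⟩
    rw [mem_sphere_zero_iff_norm, pi_norm_const, norm_one]
  obtain ⟨x₀, hx₀, hmin⟩ := (isCompact_sphere (0 : Fin r → ℝ) 1).exists_isMinOn hne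
    (cont_self (G := G)).continuousOn
  have hx₀' : x₀ ≠ 0 := by
    rintro rfl
    rw [mem_sphere_zero_iff_norm, norm_zero] at hx₀
    exact zero_ne_one hx₀
  have hm := h.pos x₀ hx₀'
  refine ⟨(bf G x₀ x₀)⁻¹, inv_pos.2 hm, fun x i => ?_⟩
  have h1 : |x i| ≤ ‖x‖ := by
    have := norm_le_pi_norm x i
    rwa [Real.norm_eq_abs] at this
  have h2 : (x i) ^ 2 ≤ ‖x‖ ^ 2 := by
    rw [← sq_abs]
    exact pow_le_pow_left₀ (abs_nonneg _) h1 2
  refine h2.trans ?_
  by_cases hx : x = 0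
  · rw [hx, norm_zero, bf_zero_left]
    norm_num
  have hxn : 0 < ‖x‖ := norm_pos_iff.2 hx
  have h3 : ‖x‖⁻¹ • x ∈ Metric.sphere (0 : Fin r → ℝ) 1 := by
    rw [mem_sphere_zero_iff_norm, norm_smul, norm_inv, norm_norm, inv_mul_cancel₀ hxn.ne']
  have h4 : bf G x₀ x₀ ≤ bf G (‖x‖⁻¹ • x) (‖x‖⁻¹ • x) := hmin h3
  rw [bf_smul_left, bf_smul_right] at h4
  have h5 : ‖x‖ ^ 2 * (‖x‖⁻¹ * (‖x‖⁻¹ * bf G x x)) = bf G x x := by
    field_simp
  have h6 : ‖x‖ ^ 2 * bf G x₀ x₀ ≤ bf G x x := by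
    rw [← h5]
    exact mul_le_mul_of_nonneg_left h4 (by positivity)
  rw [inv_mul_eq_div, le_div_iff₀ hm]
  exact h6

/-- finitely many lattice points near a point -/
lemma fin_near (h : PosD G) (x : Fin r → ℝ) (c : ℝ) : {v : Fin r → ℤ | sd G x v ≤ c}.Finite := by
  obtain ⟨K, hK, hb⟩ := coord h
  refine (Set.finite_Icc (fun i => ⌊x i - (K * c + 1)⌋) (fun i => ⌈x i + (K * c + 1)⌉)).subset ?_
  intro v hv
  have h1 : ∀ i, |x i - (v i : ℝ)| ≤ K * c + 1 := by
    intro i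
    have h2 := hb (fun i => x i - (v i : ℝ)) i
    have h3 : K * bf G (fun i => x i - (v i : ℝ)) (fun i => x i - (v i : ℝ)) ≤ K * c :=
      mul_le_mul_of_nonneg_left hv hK.le
    have h4 : (x i - (v i : ℝ)) ^ 2 ≤ K * c := h2.trans h3
    rw [← sq_abs] at h4
    nlinarith [sq_nonneg (|x i - (v i : ℝ)| - 1), abs_nonneg (x i - (v i : ℝ))]
  refine ⟨fun i => ?_, fun i => ?_⟩
  · have h2 := (abs_le.1 (h1 i)).2
    have h3 : x i - (K * c + 1) ≤ (v i : ℝ) := by linarith
    have h4 : ((⌊x i - (K * c + 1)⌋ : ℤ) : ℝ) ≤ ((v i : ℤ) : ℝ) := (Int.floor_le _).trans h3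
    exact_mod_cast h4
  · have h2 := (abs_le.1 (h1 i)).1
    have h3 : (v i : ℝ) ≤ x i + (K * c + 1) := by linarith
    have h4 : ((v i : ℤ) : ℝ) ≤ ((⌈x i + (K * c + 1)⌉ : ℤ) : ℝ) := h3.trans (Int.le_ceil _)
    exact_mod_cast h4

/-- a nearest lattice point -/
lemma near (h : PosD G) (y : Fin r → ℝ) : ∃ v₀ : Fin r → ℤ, ∀ v, sd G y v₀ ≤ sd G y v := by
  have hf := fin_near h y (sd G y 0)
  obtain ⟨v₀, hv₀, hmin⟩ := Set.exists_min_image _ (fun v => sd G y v) hf ⟨0, le_refl (sd G y 0)⟩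
  refine ⟨v₀, fun v => ?_⟩
  by_cases hv : sd G y v ≤ sd G y 0
  · exact hmin v hv
  · exact (show sd G y v₀ ≤ sd G y 0 from hv₀).trans (not_le.1 hv).le

lemma sd_nonneg (h : PosD G) (y : Fin r → ℝ) (v : Fin r → ℤ) : 0 ≤ sd G y v := nonneg h _

lemma sd_cont (v : Fin r → ℤ) : Continuous fun y : Fin r → ℝ => sd G y v := by
  unfold sd
  have h1 : Continuous fun y : Fin r → ℝ => (fun i => y i - (v i : ℝ)) := by fun_prop
  exact bf_contR G h1 h1

end Basic

theorem hole0 : JobHole0 := by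
  intro r G hG
  classical
  set f : (Fin r → ℝ) → ℝ := fun y => ⨅ v : Fin r → ℤ, sd G y v with hf
  have hbdd : ∀ y, BddBelow (Set.range fun v : Fin r → ℤ => sd G y v) := fun y =>
    ⟨0, by rintro _ ⟨v, rfl⟩; exact sd_nonneg hG y v⟩
  have husc : UpperSemicontinuous f :=
    upperSemicontinuous_ciInf hbdd fun v => (sd_cont v).upperSemicontinuous
  have hne : (Set.Icc (0 : Fin r → ℝ) 1).Nonempty := ⟨0, le_refl _, zero_le_one⟩
  obtain ⟨x, _, hmax⟩ := (husc.upperSemicontinuousOn (Set.Icc (0 : Fin r → ℝ) 1)).exists_isMaxOn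
    hne isCompact_Icc
  refine ⟨x, f x, fun v => ciInf_le (hbdd x) v, fun y => ?_⟩
  have hz : (fun i => Int.fract (y i)) ∈ Set.Icc (0 : Fin r → ℝ) 1 :=
    ⟨fun i => Int.fract_nonneg _, fun i => (Int.fract_lt_one _).le⟩
  obtain ⟨v₀, hv₀⟩ := near hG (fun i => Int.fract (y i))
  have h1 : sd G (fun i => Int.fract (y i)) v₀ ≤ f (fun i => Int.fract (y i)) := le_ciInf hv₀
  refine ⟨fun i => v₀ i + ⌊y i⌋, ?_⟩
  have h2 : sd G y (fun i => v₀ i + ⌊y i⌋) = sd G (fun i => Int.fract (y i)) v₀ := by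
    unfold sd
    have h3 : (fun i => y i - ((v₀ i + ⌊y i⌋ : ℤ) : ℝ)) =
        fun i => Int.fract (y i) - (v₀ i : ℝ) := by
      funext i
      rw [Int.fract]
      push_cast
      ring
    rw [h3]
  rw [h2]
  exact h1.trans (hmax hz)

/-- moving the point -/
lemma sd_move {r : ℕ} {G : Matrix (Fin r) (Fin r) ℤ} (h : PosD G) (x d : Fin r → ℝ) (t : ℝ)
    (v : Fin r → ℤ) : sd G (x + t • d) v =
      sd G x v - 2 * t * bf G d (fun i => (v i : ℝ) - x i) + t ^ 2 * bf G d d := by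
  unfold sd
  have h1 : (fun i => (x + t • d) i - (v i : ℝ)) = t • d - (fun i => (v i : ℝ) - x i) := by
    funext i
    simp only [Pi.add_apply, Pi.smul_apply, Pi.sub_apply, smul_eq_mul]
    ring
  have h2 : (fun i => x i - (v i : ℝ)) = -(fun i => (v i : ℝ) - x i) := by
    funext i
    simp only [Pi.neg_apply]
    ring
  rw [h1, h2, bf_neg_left, bf_neg_right, bf_sub_left, bf_sub_right, bf_sub_right, bf_smul_left,
    bf_smul_right, bf_smul_left, bf_smul_right,
    bf_comm h.symm (fun i => (v i : ℝ) - x i) d]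
  ring

theorem hole1 : JobHole1 := by
  intro r G hG x ρ hρ hcov d hd
  classical
  by_contra hno
  push Not at hno
  have hdd := hG.pos d hd
  set S := {v : Fin r → ℤ | sd G x v ≤ 2 * ρ + 2 * bf G d d} with hS
  have hSf : S.Finite := fin_near hG x _
  have hev : ∀ᶠ t in 𝓝[>] (0 : ℝ), ∀ v ∈ S, ρ < sd G (x + t • d) v := by
    rw [hSf.eventually_all]
    intro v _
    rcases eq_or_lt_of_le (hρ v) with h1 | h1
    · filter_upwards [self_mem_nhdsWithin] with t ht
      have ht' : (0 : ℝ) < t := ht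
      have h2 := hno v h1.symm
      rw [sd_move hG, ← h1]
      have h3 : 0 < t ^ 2 * bf G d d := by positivity
      have h4 : 2 * t * bf G d (fun i => (v i : ℝ) - x i) ≤ 0 :=
        mul_nonpos_of_nonneg_of_nonpos (by positivity) h2
      linarith
    · have h2 : Continuous fun t : ℝ => sd G (x + t • d) v := by
        have h3 : Continuous fun t : ℝ => x + t • d := by fun_prop
        exact (sd_cont v).comp h3
      have h3 : Tendsto (fun t : ℝ => sd G (x + t • d) v) (𝓝[>] 0) (𝓝 (sd G (x + (0 : ℝ) • d) v)) :=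
        (h2.tendsto 0).mono_left nhdsWithin_le_nhds
      rw [zero_smul, add_zero] at h3
      exact h3.eventually (lt_mem_nhds h1)
  have hev2 : ∀ᶠ t in 𝓝[>] (0 : ℝ), t ≤ 1 :=
    (eventually_le_nhds (zero_lt_one)).filter_mono nhdsWithin_le_nhds
  obtain ⟨t, h1, h2, h3⟩ := (hev.and (hev2.and self_mem_nhdsWithin)).exists
  have h3' : (0 : ℝ) < t := h3
  obtain ⟨v, hv⟩ := hcov (x + t • d)
  have hvS : v ∈ S := by
    show sd G x v ≤ 2 * ρ + 2 * bf G d d
    have h4 := nonneg hG (fun i => (x + (2 * t) • d) i - (v i : ℝ))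
    have h5 := sd_move hG x d (2 * t) v
    have h6 := sd_move hG x d t v
    have h7 : 0 ≤ sd G (x + (2 * t) • d) v := h4
    have h8 : t ^ 2 * bf G d d ≤ bf G d d := by
      have : t ^ 2 ≤ 1 := by nlinarith
      nlinarith
    nlinarith
  exact absurd hv (not_le.2 (h1 v hvS))

/-- even Gram matrices give even norms (as in `Pool.Agent.Y813.RL.Tube5`) -/
theorem even_bf {ι : Type} [Fintype ι] [DecidableEq ι] {B : Matrix ι ι ℤ} (hB : B.IsSymm)
    (he : ∀ i, Even (B i i)) (v : ι → ℤ) : ∃ N : ℤ, bf B v v = 2 * N := by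
  let f : (ι → ℤ) →+ ZMod 2 :=
    { toFun := fun v => ((bf B v v : ℤ) : ZMod 2)
      map_zero' := by rw [bf_zero_left]; simp
      map_add' := by
        intro x y
        rw [bf_add_left, bf_add_right, bf_add_right, bf_comm hB y x]
        push_cast
        have : (2 : ZMod 2) = 0 := rfl
        linear_combination ((bf B x y : ℤ) : ZMod 2) * this }
  have hf : f = 0 := by
    apply AddMonoidHom.functions_ext
    intro i n
    have h1 : bf B (Pi.single i n) (Pi.single i n) = n * B i i * n := by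
      simp [bf, Pi.single_apply]
    have h2 : ((B i i : ℤ) : ZMod 2) = 0 := by
      have := (he i).two_dvd
      exact (ZMod.intCast_zmod_eq_zero_iff_dvd _ 2).2 (by exact_mod_cast this)
    show ((bf B (Pi.single i n) (Pi.single i n) : ℤ) : ZMod 2) = 0
    rw [h1]
    push_cast
    rw [h2]
    simp
  have := DFunLike.congr_fun hf v
  have h3 : ((bf B v v : ℤ) : ZMod 2) = 0 := this
  have h4 := (ZMod.intCast_zmod_eq_zero_iff_dvd _ 2).1 h3
  obtain ⟨N, hN⟩ := h4
  exact ⟨N, by exact_mod_cast hN⟩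

lemma bf_eq_dot {R : Type*} [CommRing R] {ι : Type*} [Fintype ι] (B : Matrix ι ι ℤ)
    (x y : ι → R) : bf B x y = x ⬝ᵥ (B.map (Int.castRingHom R)).mulVec y := by
  unfold bf
  simp only [dotProduct, Matrix.mulVec, Matrix.map_apply, Finset.mul_sum, mul_assoc]
  rfl

/-- the form of a transformed matrix -/
theorem bf_conj {R : Type*} [CommRing R] {ι κ : Type*} [Fintype ι] [Fintype κ]
    (N : Matrix ι ι ℤ) (P : Matrix ι κ ℤ) (x y : κ → R) :
    bf (P.transpose * N * P) x y =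
      bf N (fun i => ∑ j, (P i j : R) * x j) (fun i => ∑ j, (P i j : R) * y j) := by
  have hP : ∀ x : κ → R, (fun i => ∑ j, (P i j : R) * x j) =
      (P.map (Int.castRingHom R)).mulVec x := fun x => rfl
  rw [hP x, hP y, bf_eq_dot, bf_eq_dot, Matrix.map_mul, Matrix.map_mul, ← Matrix.mulVec_mulVec,
    ← Matrix.mulVec_mulVec, Matrix.dotProduct_mulVec, Matrix.transpose_map,
    Matrix.vecMul_transpose]

theorem prim : JobPrim := by
  intro r G N P hG hcov hN hP
  classical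
  refine ⟨P, hP, ?_⟩
  intro d w v hd hw
  have hd' : (d : ℝ) ≠ 0 := by exact_mod_cast hd
  obtain ⟨v', hv'⟩ := hcov (fun i => (v i : ℝ) / d)
  refine ⟨v', ?_⟩
  set u : Fin 24 → ℤ := w - P.mulVec v' with hu
  have h1 : (fun i => ∑ j, (P i j : ℝ) * ((v j : ℝ) / d - (v' j : ℝ))) =
      fun i => ((u i : ℤ) : ℝ) := by
    funext i
    have h2 := hw i
    have h3 : ((d * w i : ℤ) : ℝ) = ((P.mulVec v i : ℤ) : ℝ) := by rw [h2]
    rw [Matrix.mulVec, dotProduct] at h3
    push_cast at h3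
    rw [hu, Pi.sub_apply, Matrix.mulVec, dotProduct]
    push_cast
    have h4 : (w i : ℝ) = ∑ j, (P i j : ℝ) * ((v j : ℝ) / d) := by
      have h5 : ∑ j, (P i j : ℝ) * ((v j : ℝ) / d) = (∑ j, (P i j : ℝ) * (v j : ℝ)) / d := by
        rw [Finset.sum_div]
        exact Finset.sum_congr rfl fun j _ => by ring
      rw [h5, ← h3, mul_div_cancel_left₀ _ hd']
    rw [h4, ← Finset.sum_sub_distrib]
    exact Finset.sum_congr rfl fun j _ => by ring
  have h2 : ((bf N u u : ℤ) : ℝ) ≤ 2 := by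
    have h3 := hv'
    unfold sd at h3
    rw [← hP, bf_conj] at h3
    rw [h1, bf_intCast] at h3
    exact h3
  have h3 : bf N u u ≤ 2 := by exact_mod_cast h2
  obtain ⟨n, hn⟩ := even_bf hN.symm hN.even u
  have h4 := hN.noroot u
  have h5 : u = 0 := by
    by_contra hne
    have h6 := hN.pos (fun i => (u i : ℝ)) (by
      intro h0
      apply hne
      funext i
      have := congrFun h0 i
      simp only [Pi.zero_apply] at this
      exact_mod_cast this)
    rw [bf_intCast] at h6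
    have h7 : 0 < bf N u u := by exact_mod_cast h6
    omega
  rw [hu] at h5
  exact sub_eq_zero.1 h5

end Pool.Agent.Y46.LE
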